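import Pool.Agent.helper95.FJ.SpecX

/-!
# Row PBP: a positive proportion of the primes `p`
-/

set_option autoImplicit false

open Finset Pool.Agent.FI Pool.Agent.BP

namespace Pool.Agent.FJ

open Pool.Agent.FIP (cta ctp)

private lemma PBP_swap (x A : ℕ) : ∑ a ∈ (Icc 1 A).filter Odd, (cta x a : ℝ) =
    ∑ p ∈ (Ioc x (2 * x)).filter Nat.Prime, (ctp A p : ℝ) := by
  have h : ∑ a ∈ (Icc 1 A).filter Odd, cta x a =
      ∑ p ∈ (Ioc x (2 * x)).filter Nat.Prime, ctp A p := by
    have h1 : ∀ a, cta x a = #(((Ioc x (2 * x)).filter Nat.Prime).bipartiteAbove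
        (fun a p => (8 * p ^ 2 - a ^ 2).Prime) a) := by
      intro a
      unfold cta Finset.bipartiteAbove
      rw [filter_filter]
    have h2 : ∀ p, ctp A p = #(((Icc 1 A).filter Odd).bipartiteBelow
        (fun a p => (8 * p ^ 2 - a ^ 2).Prime) p) := by
      intro p
      unfold ctp Finset.bipartiteBelow
      rw [filter_filter]
    rw [sum_congr rfl (fun a _ => h1 a), sum_congr rfl (fun p _ => h2 p)]
    exact Finset.sum_card_bipartiteAbove_eq_sum_card_bipartiteBelow _
  exact_mod_cast h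

private lemma PBP_cheb (x : ℕ) (hx : 3 ≤ x) :
    (#((Ioc x (2 * x)).filter Nat.Prime) : ℝ) ≤ 4 * (x / Real.log x) := by
  have hx1 : (3 : ℝ) ≤ x := by exact_mod_cast hx
  have hlog : 0 < Real.log x := Real.log_pos (by linarith)
  have h1 : (#((Ioc x (2 * x)).filter Nat.Prime) : ℝ) * Real.log x ≤
      Chebyshev.theta ((2 * x : ℕ) : ℝ) := by
    have h2 : Chebyshev.theta ((2 * x : ℕ) : ℝ) =
        ∑ p ∈ (Ioc 0 (2 * x)).filter Nat.Prime, Real.log p := by
      rw [Chebyshev.theta, Nat.floor_natCast]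
    rw [h2, ← nsmul_eq_mul, ← sum_const]
    have h3 : ∑ p ∈ (Ioc x (2 * x)).filter Nat.Prime, Real.log x ≤
        ∑ p ∈ (Ioc x (2 * x)).filter Nat.Prime, Real.log p := by
      apply sum_le_sum
      intro p hp
      rw [mem_filter, mem_Ioc] at hp
      apply Real.log_le_log (by linarith)
      exact_mod_cast hp.1.1.le
    refine h3.trans (sum_le_sum_of_subset_of_nonneg ?_ ?_)
    · intro p hp
      rw [mem_filter, mem_Ioc] at hp ⊢
      exact ⟨⟨by omega, hp.1.2⟩, hp.2⟩
    · intro p hp _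
      rw [mem_filter, mem_Ioc] at hp
      apply Real.log_nonneg
      exact_mod_cast hp.2.one_lt.le
  have h4 : Chebyshev.theta ((2 * x : ℕ) : ℝ) ≤ Real.log 4 * ((2 * x : ℕ) : ℝ) :=
    Chebyshev.theta_le_log4_mul_x (by positivity)
  have h5 : Real.log 4 ≤ 2 := by
    have : Real.log 4 = 2 * Real.log 2 := by
      rw [show (4 : ℝ) = 2 ^ 2 by norm_num, Real.log_pow]
      norm_num
    rw [this]
    linarith [Real.log_two_lt_d9]
  have h6 := h1.trans h4
  push_cast at h6
  rw [← mul_div_assoc, le_div_iff₀ hlog]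
  nlinarith

theorem PBP (hPSP : PSP_stmt) (hPMW : PMW_stmt) : PBP_stmt := by
  obtain ⟨C, hC, x₁, h₁⟩ := hPSP
  obtain ⟨c₁, hc₁, hPMV⟩ := hPMW
  refine ⟨min (c₁ / 8) (c₁ / (2 * C)), by positivity, fun η hη => ?_⟩
  obtain ⟨x₂, h₂⟩ := hPMV η hη
  refine ⟨max 3 (max x₁ x₂), fun x hx A hA hAx => ?_⟩
  have hx3 : 3 ≤ x := le_trans (le_max_left _ _) hx
  have hx1 : x₁ ≤ x := le_trans (le_trans (le_max_left _ _) (le_max_right _ _)) hx
  have hx2 : x₂ ≤ x := le_trans (le_trans (le_max_right _ _) (le_max_right _ _)) hx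
  have hs := h₂ x hx2 A hA hAx
  have hx3'' : (1 : ℝ) ≤ x := by
    have : (3 : ℝ) ≤ x := by exact_mod_cast hx3
    linarith
  have hA' : (x : ℝ) ^ (2 / 3 : ℝ) ≤ A := by
    refine le_trans ?_ hA
    exact Real.rpow_le_rpow_of_exponent_le hx3'' (by linarith)
  have hu := h₁ x hx1 A hA' hAx
  rw [PBP_swap] at hs
  have hx3' : (3 : ℝ) ≤ x := by exact_mod_cast hx3
  have hlog : 0 < Real.log x := Real.log_pos (by linarith)
  have hA0 : (0 : ℝ) < A := lt_of_lt_of_le (by positivity) hA
  set c := min (c₁ / 8) (c₁ / (2 * C)) with hc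
  have hc8 : c ≤ c₁ / 8 := min_le_left _ _
  have hcC : c ≤ c₁ / (2 * C) := min_le_right _ _
  have hc0 : 0 < c := by positivity
  set P := (Ioc x (2 * x)).filter Nat.Prime with hP
  have hcheb : (#P : ℝ) ≤ 4 * (x / Real.log x) := PBP_cheb x hx3
  set G := P.filter (fun p => c * (A / Real.log x) ≤ ctp A p) with hG
  have hGeq : ((Ioc x (2 * x)).filter fun p => p.Prime ∧ c * (A / Real.log x) ≤ ctp A p) = G := by
    rw [hG, hP, filter_filter]
  rw [hGeq]
  have hsplit : ∑ p ∈ P, (ctp A p : ℝ) ≤ (#G : ℝ) * (C * (A / Real.log x)) +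
      (#P : ℝ) * (c * (A / Real.log x)) := by
    rw [← sum_filter_add_sum_filter_not P (fun p => c * (A / Real.log x) ≤ ctp A p)]
    apply add_le_add
    · rw [← nsmul_eq_mul]
      apply sum_le_card_nsmul
      intro p hp
      exact hu p (mem_of_mem_filter p hp)
    · have h6 : ∑ p ∈ P.filter (fun p => ¬ c * (A / Real.log x) ≤ ctp A p), (ctp A p : ℝ) ≤
          (#(P.filter (fun p => ¬ c * (A / Real.log x) ≤ ctp A p)) : ℝ) *
            (c * (A / Real.log x)) := by
        rw [← nsmul_eq_mul]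
        apply sum_le_card_nsmul
        intro p hp
        rw [mem_filter, not_le] at hp
        exact hp.2.le
      refine h6.trans (mul_le_mul_of_nonneg_right ?_ (by positivity))
      exact_mod_cast card_filter_le _ _
  have hAl : 0 < (A : ℝ) / Real.log x := by positivity
  have e1 : c₁ * (A * x / Real.log x ^ 2) = (c₁ * (x / Real.log x)) * (A / Real.log x) := by
    field_simp
  rw [e1] at hs
  have h7 : (c₁ * (x / Real.log x)) * (A / Real.log x) ≤
      ((#G : ℝ) * C + #P * c) * (A / Real.log x) := by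
    refine (hs.trans hsplit).trans (le_of_eq ?_)
    ring
  have h8 := le_of_mul_le_mul_right h7 hAl
  have hxl : 0 < (x : ℝ) / Real.log x := by positivity
  have h9 : (#P : ℝ) * c ≤ c₁ / 2 * (x / Real.log x) := by
    calc (#P : ℝ) * c ≤ 4 * (x / Real.log x) * (c₁ / 8) :=
          mul_le_mul hcheb hc8 hc0.le (by positivity)
      _ = c₁ / 2 * (x / Real.log x) := by ring
  have h10 : c₁ / 2 * (x / Real.log x) ≤ (#G : ℝ) * C := by linarith
  calc c * (x / Real.log x) ≤ c₁ / (2 * C) * (x / Real.log x) :=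
        mul_le_mul_of_nonneg_right hcC hxl.le
    _ = (c₁ / 2 * (x / Real.log x)) / C := by field_simp
    _ ≤ #G := by
        rw [div_le_iff₀ hC]
        exact h10

end Pool.Agent.FJ
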